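import Pool.Agent.helper52.IR.Spec
set_option autoImplicit false

/-! Row PAV of MP_07c750_an (plan of helper52): the average over `w` of the product of two power spectra is small
(change of variables in `u`, Fubini, change of variables in `w`, mean square over a period). -/

open scoped MatrixGroups ContDiff Topology UpperHalfPlane ComplexConjugate
open UpperHalfPlane MeasureTheory Filter Set

namespace Pool.Agent.IR

open Pool.Agent.RS

theorem PAV_cont (P : Finset ℤ) : Continuous fun t : ℝ => ‖ps P t‖ ^ 2 := by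
  unfold ps
  fun_prop

theorem PAV_ns (P : Finset ℤ) (t : ℝ) : ‖ps P t‖ ^ 2 = ∑ p ∈ P, ∑ p' ∈ P, Real.cos (((p - p' : ℤ) : ℝ) * t) := by
  have hre : (ps P t).re = ∑ p ∈ P, Real.cos (p * t) := by
    unfold ps
    rw [Complex.re_sum]
    exact Finset.sum_congr rfl fun p _ => Complex.exp_ofReal_mul_I_re _
  have him : (ps P t).im = ∑ p ∈ P, Real.sin (p * t) := by
    unfold ps
    rw [Complex.im_sum]
    exact Finset.sum_congr rfl fun p _ => Complex.exp_ofReal_mul_I_im _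
  rw [Complex.sq_norm, Complex.normSq_apply, hre, him, Finset.sum_mul_sum, Finset.sum_mul_sum, ← Finset.sum_add_distrib]
  refine Finset.sum_congr rfl fun p _ => ?_
  rw [← Finset.sum_add_distrib]
  refine Finset.sum_congr rfl fun p' _ => ?_
  rw [show ((p - p' : ℤ) : ℝ) * t = p * t - p' * t by push_cast; ring, Real.cos_sub]

theorem PAV_cosint (m : ℤ) (N : ℕ) (hm : m ≠ 0) : ∫ t in (-(N * Real.pi))..(N * Real.pi), Real.cos ((m : ℝ) * t) = 0 := by
  have hm' : (m : ℝ) ≠ 0 := by exact_mod_cast hm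
  rw [intervalIntegral.integral_comp_mul_left (fun t => Real.cos t) hm', integral_cos]
  have h1 : Real.sin ((m : ℝ) * (N * Real.pi)) = 0 := by
    have := Real.sin_int_mul_pi (m * N)
    push_cast at this
    rw [← mul_assoc]
    exact this
  have h2 : Real.sin ((m : ℝ) * -(N * Real.pi)) = 0 := by
    rw [mul_neg, Real.sin_neg, h1, neg_zero]
  rw [h1, h2]
  simp

theorem PAV_int (P : Finset ℤ) (N : ℕ) : ∫ t in Icc (-(N * Real.pi)) (N * Real.pi), ‖ps P t‖ ^ 2 = 2 * (N * Real.pi) * P.card := by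
  have h0 : -(N * Real.pi) ≤ N * Real.pi := by
    have := Real.pi_pos
    have : 0 ≤ (N : ℝ) * Real.pi := by positivity
    linarith
  rw [integral_Icc_eq_integral_Ioc, ← intervalIntegral.integral_of_le h0]
  simp_rw [PAV_ns]
  rw [intervalIntegral.integral_finsetSum (fun p _ => (continuous_finsetSum _ fun p' _ => by fun_prop).intervalIntegrable _ _)]
  have h1 : ∀ p ∈ P, ∫ t in (-(N * Real.pi))..(N * Real.pi), ∑ p' ∈ P, Real.cos (((p - p' : ℤ) : ℝ) * t) = 2 * (N * Real.pi) := by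
    intro p hp
    rw [intervalIntegral.integral_finsetSum (fun p' _ => Continuous.intervalIntegrable (by fun_prop) _ _)]
    rw [Finset.sum_eq_single_of_mem p hp]
    · simp
      ring
    · intro p' _ hne
      exact PAV_cosint (p - p') N (sub_ne_zero.2 (Ne.symm hne))
  rw [Finset.sum_congr rfl h1, Finset.sum_const, nsmul_eq_mul]
  ring

theorem PAV_bd (P : Finset ℤ) (B : Set ℝ) (hB : B ⊆ Icc (-(64 : ℝ)) 64) : ∫ t in B, ‖ps P t‖ ^ 2 ≤ 42 * Real.pi * P.card := by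
  have hpi : 3 < Real.pi := Real.pi_gt_three
  have h1 : B ⊆ Icc (-((21 : ℕ) * Real.pi)) ((21 : ℕ) * Real.pi) := by
    refine hB.trans (Icc_subset_Icc ?_ ?_)
    · push_cast
      nlinarith [Real.pi_gt_d2]
    · push_cast
      nlinarith [Real.pi_gt_d2]
  have h2 := setIntegral_mono_set (μ := volume) (s := B) ((PAV_cont P).continuousOn.integrableOn_compact (isCompact_Icc (a := -((21 : ℕ) * Real.pi)) (b := (21 : ℕ) * Real.pi)))
    (Eventually.of_forall fun t => sq_nonneg ‖ps P t‖) (LE.le.eventuallyLE h1)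
  refine h2.trans (le_of_eq ?_)
  rw [PAV_int]
  push_cast
  ring

theorem PAV_om (w x : ℝ) (hw : |w| ≤ 1 / 16) (hx : |x| ≤ 3) : 13 / 16 ≤ 1 - w * x ∧ 1 - w * x ≤ 19 / 16 := by
  have h : |w * x| ≤ 1 / 16 * 3 := by
    rw [abs_mul]
    exact mul_le_mul hw hx (abs_nonneg _) (by norm_num)
  have := abs_le.1 h
  constructor <;> linarith

/-- the integral in `w` -/
theorem PAV_w (P' : Finset ℤ) (x x' θ0 s : ℝ) (hx : |x| ≤ 3) (hx' : |x'| ≤ 3) (hne : x ≠ x') (hθ : 0 < θ0) (hs : θ0 / 4 ≤ |s|) (hs' : |s| ≤ 16) :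
    ∫ w in Icc (-(1 / 16) : ℝ) (1 / 16), ‖ps P' (((1 - w * x) / (1 - w * x')) ^ 2 * s)‖ ^ 2 ≤ 8 / (|x - x'| * θ0) * (42 * Real.pi * P'.card) := by
  have hd : 0 < |x - x'| := abs_pos.2 (sub_ne_zero.2 hne)
  have hs0 : s ≠ 0 := by
    intro h
    rw [h, abs_zero] at hs
    linarith
  have hI : ∀ w ∈ Icc (-(1 / 16) : ℝ) (1 / 16), |w| ≤ 1 / 16 := fun w hw => abs_le.2 ⟨hw.1, hw.2⟩
  have hder : ∀ w ∈ Icc (-(1 / 16) : ℝ) (1 / 16), HasDerivWithinAt (fun w => ((1 - w * x) / (1 - w * x')) ^ 2 * s)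
      (2 * (1 - w * x) * (x' - x) / (1 - w * x') ^ 3 * s) (Icc (-(1 / 16) : ℝ) (1 / 16)) w := by
    intro w hw
    have h1 := (PAV_om w x' (hI w hw) hx').1
    have h1' : 1 - w * x' ≠ 0 := by intro h; rw [h] at h1; norm_num at h1
    have d1 : HasDerivAt (fun w : ℝ => 1 - w * x) (-x) w := by
      simpa using ((hasDerivAt_id w).mul_const x).const_sub 1
    have d2 : HasDerivAt (fun w : ℝ => 1 - w * x') (-x') w := by
      simpa using ((hasDerivAt_id w).mul_const x').const_sub 1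
    have d3 := (((d1.div d2 h1').pow 2).mul_const s)
    refine (d3.congr_deriv ?_).hasDerivWithinAt
    have e1 : ((fun w : ℝ => 1 - w * x) / fun w : ℝ => 1 - w * x') w ^ (2 - 1) = (1 - w * x) / (1 - w * x') := by
      show ((1 - w * x) / (1 - w * x')) ^ 1 = _
      exact pow_one _
    have e2 : -x * (1 - w * x') - (1 - w * x) * -x' = x' - x := by ring
    rw [e1, e2, Nat.cast_ofNat]
    field_simp
  have hinj : InjOn (fun w => ((1 - w * x) / (1 - w * x')) ^ 2 * s) (Icc (-(1 / 16) : ℝ) (1 / 16)) := by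
    intro w hw v hv he
    have a1 := (PAV_om w x (hI w hw) hx).1
    have a2 := (PAV_om w x' (hI w hw) hx').1
    have b1 := (PAV_om v x (hI v hv) hx).1
    have b2 := (PAV_om v x' (hI v hv) hx').1
    have he' : ((1 - w * x) / (1 - w * x')) ^ 2 = ((1 - v * x) / (1 - v * x')) ^ 2 := mul_right_cancel₀ hs0 he
    have hp1 : 0 ≤ (1 - w * x) / (1 - w * x') := div_nonneg (by linarith) (by linarith)
    have hp2 : 0 ≤ (1 - v * x) / (1 - v * x') := div_nonneg (by linarith) (by linarith)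
    have he2 : (1 - w * x) / (1 - w * x') = (1 - v * x) / (1 - v * x') := (pow_left_inj₀ hp1 hp2 (by norm_num)).1 he'
    rw [div_eq_div_iff (by linarith) (by linarith)] at he2
    have he3 : (w - v) * (x' - x) = 0 := by linarith
    rcases mul_eq_zero.1 he3 with h | h
    · linarith
    · exact absurd (by linarith) hne
  have hsub := integral_image_eq_integral_abs_deriv_smul (s := Icc (-(1 / 16) : ℝ) (1 / 16)) measurableSet_Icc hder hinj (fun t => ‖ps P' t‖ ^ 2)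
  have hc1 : ContinuousOn (fun w : ℝ => ((1 - w * x) / (1 - w * x')) ^ 2 * s) (Icc (-(1 / 16) : ℝ) (1 / 16)) := fun w hw => (hder w hw).continuousWithinAt
  have hint : IntegrableOn (fun w => ‖ps P' (((1 - w * x) / (1 - w * x')) ^ 2 * s)‖ ^ 2) (Icc (-(1 / 16) : ℝ) (1 / 16)) :=
    ((PAV_cont P').comp_continuousOn hc1).integrableOn_compact isCompact_Icc
  have hc2 : ContinuousOn (fun w : ℝ => |2 * (1 - w * x) * (x' - x) / (1 - w * x') ^ 3 * s|) (Icc (-(1 / 16) : ℝ) (1 / 16)) := by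
    refine ContinuousOn.abs (ContinuousOn.mul (ContinuousOn.div (by fun_prop) (by fun_prop) fun w hw => ?_) continuousOn_const)
    have h1 := (PAV_om w x' (hI w hw) hx').1
    exact pow_ne_zero 3 (by intro h; rw [h] at h1; norm_num at h1)
  have hint2 : IntegrableOn (fun w => |2 * (1 - w * x) * (x' - x) / (1 - w * x') ^ 3 * s| • ‖ps P' (((1 - w * x) / (1 - w * x')) ^ 2 * s)‖ ^ 2) (Icc (-(1 / 16) : ℝ) (1 / 16)) :=
    (hc2.smul ((PAV_cont P').comp_continuousOn hc1)).integrableOn_compact isCompact_Icc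
  have hlow : ∫ w in Icc (-(1 / 16) : ℝ) (1 / 16), (|x - x'| * θ0 / 8) * ‖ps P' (((1 - w * x) / (1 - w * x')) ^ 2 * s)‖ ^ 2 ≤
      ∫ w in Icc (-(1 / 16) : ℝ) (1 / 16), |2 * (1 - w * x) * (x' - x) / (1 - w * x') ^ 3 * s| • ‖ps P' (((1 - w * x) / (1 - w * x')) ^ 2 * s)‖ ^ 2 := by
    refine setIntegral_mono_on (hint.const_mul _) hint2 measurableSet_Icc fun w hw => ?_
    rw [smul_eq_mul]
    refine mul_le_mul_of_nonneg_right ?_ (sq_nonneg _)
    have a1 := PAV_om w x (hI w hw) hx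
    have a2 := PAV_om w x' (hI w hw) hx'
    rw [abs_mul, abs_div, abs_mul, abs_of_pos (show 0 < 2 * (1 - w * x) by linarith), abs_of_pos (show 0 < (1 - w * x') ^ 3 from pow_pos (by linarith) 3), abs_sub_comm x' x]
    have h3 : (1 - w * x') ^ 3 ≤ (19 / 16) ^ 3 := pow_le_pow_left₀ (by linarith) a2.2 3
    have h4 : |x - x'| / 2 ≤ 2 * (1 - w * x) * |x - x'| / (1 - w * x') ^ 3 := by
      rw [le_div_iff₀ (pow_pos (by linarith) 3)]
      have h5 : |x - x'| / 2 * (1 - w * x') ^ 3 ≤ |x - x'| / 2 * (19 / 16) ^ 3 := mul_le_mul_of_nonneg_left h3 (by positivity)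
      have h6 : 2 * (13 / 16) * |x - x'| ≤ 2 * (1 - w * x) * |x - x'| := mul_le_mul_of_nonneg_right (by linarith) hd.le
      nlinarith
    calc |x - x'| * θ0 / 8 = |x - x'| / 2 * (θ0 / 4) := by ring
      _ ≤ 2 * (1 - w * x) * |x - x'| / (1 - w * x') ^ 3 * |s| := mul_le_mul h4 hs (by positivity) (le_trans (by positivity) h4)
  rw [← hsub, integral_const_mul] at hlow
  have hB : ∫ t in (fun w => ((1 - w * x) / (1 - w * x')) ^ 2 * s) '' (Icc (-(1 / 16) : ℝ) (1 / 16)), ‖ps P' t‖ ^ 2 ≤ 42 * Real.pi * P'.card := by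
    refine PAV_bd P' _ ?_
    rintro t ⟨w, hw, rfl⟩
    have a1 := PAV_om w x (hI w hw) hx
    have a2 := PAV_om w x' (hI w hw) hx'
    rw [mem_Icc, ← abs_le]
    simp only
    rw [abs_mul, abs_of_nonneg (sq_nonneg _)]
    have h1 : (1 - w * x) / (1 - w * x') ≤ 2 := by
      rw [div_le_iff₀ (by linarith)]
      linarith
    have h2 : 0 ≤ (1 - w * x) / (1 - w * x') := div_nonneg (by linarith) (by linarith)
    have h3 : ((1 - w * x) / (1 - w * x')) ^ 2 ≤ 4 := by nlinarith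
    calc ((1 - w * x) / (1 - w * x')) ^ 2 * |s| ≤ 4 * 16 := mul_le_mul h3 hs' (abs_nonneg _) (by norm_num)
      _ = 64 := by norm_num
  have h7 := hlow.trans hB
  rw [div_mul_eq_mul_div, le_div_iff₀ (by positivity)]
  linarith


open scoped Pointwise in
theorem PAV_u (P P' : Finset ℤ) (x x' θ0 w : ℝ) (hx : |x| ≤ 3) (hx' : |x'| ≤ 3) (hθ : 0 < θ0) (hw : |w| ≤ 1 / 16) :
    ∫ u in {u : ℝ | θ0 / 2 ≤ |u| ∧ |u| ≤ 8}, ‖ps P (om w x * u)‖ ^ 2 * ‖ps P' (om w x' * u)‖ ^ 2 ≤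
      2 * ∫ s in {s : ℝ | θ0 / 4 ≤ |s| ∧ |s| ≤ 16}, ‖ps P s‖ ^ 2 * ‖ps P' (((1 - w * x) / (1 - w * x')) ^ 2 * s)‖ ^ 2 := by
  have a1 := PAV_om w x hw hx
  have a2 := PAV_om w x' hw hx'
  have ho : 0 < om w x := by
    unfold om
    exact div_pos one_pos (pow_pos (by linarith) 2)
  have ho1 : 1 / 2 ≤ om w x := by
    unfold om
    rw [div_le_div_iff₀ (by norm_num) (pow_pos (by linarith) 2)]
    nlinarith
  have ho2 : om w x ≤ 2 := by
    unfold om
    rw [div_le_iff₀ (pow_pos (by linarith) 2)]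
    nlinarith
  have hq : om w x' = ((1 - w * x) / (1 - w * x')) ^ 2 * om w x := by
    unfold om
    have h1 : 1 - w * x ≠ 0 := by intro h; rw [h] at a1; norm_num at a1
    have h2 : 1 - w * x' ≠ 0 := by intro h; rw [h] at a2; norm_num at a2
    field_simp
  have h1 : ∀ u : ℝ, ‖ps P (om w x * u)‖ ^ 2 * ‖ps P' (om w x' * u)‖ ^ 2 =
      (fun s => ‖ps P s‖ ^ 2 * ‖ps P' (((1 - w * x) / (1 - w * x')) ^ 2 * s)‖ ^ 2) (om w x • u) := by
    intro u
    simp only [smul_eq_mul]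
    rw [hq, mul_assoc]
  have h2 : ∫ u in {u : ℝ | θ0 / 2 ≤ |u| ∧ |u| ≤ 8}, ‖ps P (om w x * u)‖ ^ 2 * ‖ps P' (om w x' * u)‖ ^ 2 =
      ∫ u in {u : ℝ | θ0 / 2 ≤ |u| ∧ |u| ≤ 8}, (fun s => ‖ps P s‖ ^ 2 * ‖ps P' (((1 - w * x) / (1 - w * x')) ^ 2 * s)‖ ^ 2) (om w x • u) :=
    integral_congr_ae (Eventually.of_forall h1)
  rw [h2, Measure.setIntegral_comp_smul_of_pos volume (fun s => ‖ps P s‖ ^ 2 * ‖ps P' (((1 - w * x) / (1 - w * x')) ^ 2 * s)‖ ^ 2) {u : ℝ | θ0 / 2 ≤ |u| ∧ |u| ≤ 8} ho]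
  have hcont : Continuous fun s : ℝ => ‖ps P s‖ ^ 2 * ‖ps P' (((1 - w * x) / (1 - w * x')) ^ 2 * s)‖ ^ 2 :=
    (PAV_cont P).mul ((PAV_cont P').comp (continuous_const.mul continuous_id))
  have hB : IntegrableOn (fun s : ℝ => ‖ps P s‖ ^ 2 * ‖ps P' (((1 - w * x) / (1 - w * x')) ^ 2 * s)‖ ^ 2) {s : ℝ | θ0 / 4 ≤ |s| ∧ |s| ≤ 16} :=
    (hcont.continuousOn.integrableOn_compact (isCompact_Icc (a := (-16 : ℝ)) (b := 16))).mono_set fun s hs => abs_le.1 hs.2
  have hsub : (om w x • {u : ℝ | θ0 / 2 ≤ |u| ∧ |u| ≤ 8} : Set ℝ) ⊆ {s : ℝ | θ0 / 4 ≤ |s| ∧ |s| ≤ 16} := by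
    rintro s ⟨u, hu, rfl⟩
    simp only [mem_ofPred_eq, smul_eq_mul] at hu ⊢
    rw [abs_mul, abs_of_pos ho]
    constructor
    · calc θ0 / 4 = 1 / 2 * (θ0 / 2) := by ring
        _ ≤ om w x * |u| := mul_le_mul ho1 hu.1 (by positivity) ho.le
    · calc om w x * |u| ≤ 2 * 8 := mul_le_mul ho2 hu.2 (abs_nonneg _) (by norm_num)
        _ = 16 := by norm_num
  have hmono := setIntegral_mono_set hB (Eventually.of_forall fun s => mul_nonneg (sq_nonneg ‖ps P s‖) (sq_nonneg ‖ps P' (((1 - w * x) / (1 - w * x')) ^ 2 * s)‖)) (LE.le.eventuallyLE hsub)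
  have hnn : 0 ≤ ∫ s in (om w x • {u : ℝ | θ0 / 2 ≤ |u| ∧ |u| ≤ 8} : Set ℝ), ‖ps P s‖ ^ 2 * ‖ps P' (((1 - w * x) / (1 - w * x')) ^ 2 * s)‖ ^ 2 :=
    integral_nonneg fun s => mul_nonneg (sq_nonneg _) (sq_nonneg _)
  have hinv : (om w x ^ Module.finrank ℝ ℝ)⁻¹ ≤ 2 := by
    rw [Module.finrank_self, pow_one]
    rw [inv_le_comm₀ ho (by norm_num)]
    linarith
  rw [smul_eq_mul]
  exact mul_le_mul hinv hmono hnn (by norm_num)

theorem PAV_proof : PAV_stmt := by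
  refine ⟨16 * (42 * Real.pi) ^ 2, by have := Real.pi_pos; positivity, ?_⟩
  intro P P' x x' θ0 hx hx' hne hθ hθ1
  have hd : 0 < |x - x'| := abs_pos.2 (sub_ne_zero.2 hne)
  have hpi := Real.pi_pos
  obtain ⟨B, hBdef⟩ : ∃ B : Set ℝ, B = {s : ℝ | θ0 / 4 ≤ |s| ∧ |s| ≤ 16} := ⟨_, rfl⟩
  have hBc : IsCompact B := by
    rw [hBdef]
    refine (isCompact_Icc (a := (-16 : ℝ)) (b := 16)).of_isClosed_subset ?_ fun s hs => abs_le.1 hs.2
    exact (isClosed_le continuous_const continuous_abs).inter (isClosed_le continuous_abs continuous_const)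
  have hBm : MeasurableSet B := hBc.measurableSet
  have hI : ∀ w ∈ Icc (-(1 / 16) : ℝ) (1 / 16), |w| ≤ 1 / 16 := fun w hw => abs_le.2 ⟨hw.1, hw.2⟩
  have hFc : ContinuousOn (fun z : ℝ × ℝ => ‖ps P z.2‖ ^ 2 * ‖ps P' (((1 - z.1 * x) / (1 - z.1 * x')) ^ 2 * z.2)‖ ^ 2) (Icc (-(1 / 16) : ℝ) (1 / 16) ×ˢ B) := by
    refine ContinuousOn.mul ((PAV_cont P).comp_continuousOn continuousOn_snd) ((PAV_cont P').comp_continuousOn ?_)
    refine ContinuousOn.mul (ContinuousOn.pow (ContinuousOn.div (by fun_prop) (by fun_prop) fun z hz => ?_) 2) continuousOn_snd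
    have h1 := (PAV_om z.1 x' (hI z.1 hz.1) hx').1
    intro h
    rw [h] at h1
    norm_num at h1
  have hFi : Integrable (fun z : ℝ × ℝ => ‖ps P z.2‖ ^ 2 * ‖ps P' (((1 - z.1 * x) / (1 - z.1 * x')) ^ 2 * z.2)‖ ^ 2)
      ((volume.restrict (Icc (-(1 / 16) : ℝ) (1 / 16))).prod (volume.restrict B)) := by
    rw [Measure.prod_restrict]
    exact hFc.integrableOn_compact (isCompact_Icc.prod hBc)
  have hstep1 : ∫ w in Icc (-(1 / 16) : ℝ) (1 / 16), ∫ u in {u : ℝ | θ0 / 2 ≤ |u| ∧ |u| ≤ 8}, ‖ps P (om w x * u)‖ ^ 2 * ‖ps P' (om w x' * u)‖ ^ 2 ≤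
      ∫ w in Icc (-(1 / 16) : ℝ) (1 / 16), 2 * ∫ s in B, ‖ps P s‖ ^ 2 * ‖ps P' (((1 - w * x) / (1 - w * x')) ^ 2 * s)‖ ^ 2 := by
    refine integral_mono_of_nonneg (Eventually.of_forall fun w => integral_nonneg fun u => mul_nonneg (sq_nonneg _) (sq_nonneg _)) (hFi.integral_prod_left.const_mul 2) ?_
    rw [EventuallyLE, ae_restrict_iff' measurableSet_Icc]
    refine Eventually.of_forall fun w hw => ?_
    have := PAV_u P P' x x' θ0 w hx hx' hθ (hI w hw)
    rw [← hBdef] at this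
    exact this
  refine hstep1.trans ?_
  rw [integral_const_mul, integral_integral_swap hFi]
  have hstep2 : ∫ s in B, ∫ w in Icc (-(1 / 16) : ℝ) (1 / 16), ‖ps P s‖ ^ 2 * ‖ps P' (((1 - w * x) / (1 - w * x')) ^ 2 * s)‖ ^ 2 ≤
      ∫ s in B, ‖ps P s‖ ^ 2 * (8 / (|x - x'| * θ0) * (42 * Real.pi * P'.card)) := by
    refine integral_mono_of_nonneg (Eventually.of_forall fun s => integral_nonneg fun w => mul_nonneg (sq_nonneg _) (sq_nonneg _))
      (((PAV_cont P).continuousOn.integrableOn_compact hBc).mul_const _) ?_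
    rw [EventuallyLE, ae_restrict_iff' hBm]
    refine Eventually.of_forall fun s hs => ?_
    rw [hBdef] at hs
    rw [integral_const_mul]
    exact mul_le_mul_of_nonneg_left (PAV_w P' x x' θ0 s hx hx' hne hθ hs.1 hs.2) (sq_nonneg _)
  rw [integral_mul_const] at hstep2
  have hBB : B ⊆ Icc (-(64 : ℝ)) 64 := by
    intro s hs
    rw [hBdef] at hs
    have := abs_le.1 hs.2
    constructor <;> linarith
  have h3 := PAV_bd P B hBB
  have hK : 0 ≤ 8 / (|x - x'| * θ0) * (42 * Real.pi * P'.card) := by positivity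
  have h4 := hstep2.trans (mul_le_mul_of_nonneg_right h3 hK)
  have h5 : 16 * (42 * Real.pi) ^ 2 * (P.card * P'.card) / (|x - x'| * θ0) = 2 * (42 * Real.pi * P.card * (8 / (|x - x'| * θ0) * (42 * Real.pi * P'.card))) := by
    field_simp
    ring
  rw [h5]
  exact mul_le_mul_of_nonneg_left h4 (by norm_num)

end Pool.Agent.IR
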